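import Pool.Agent.Helper98.EY.StmtsC

set_option autoImplicit false

namespace Pool.Agent.Helper98.EX

open Finset Filter

theorem capup_log (K : ℝ) : ∃ N0 : ℕ, ∀ N : ℕ, N0 ≤ N → 1 ≤ Real.log N ∧
    Real.log N ^ 10132 ≤ (N : ℝ) ^ (1 / 8 : ℝ) ∧ K ≤ (N : ℝ) ^ (1 / 8 : ℝ) := by
  have h1 : ∀ᶠ x : ℝ in atTop, 1 ≤ Real.log x := Real.tendsto_log_atTop.eventually_ge_atTop 1
  have h2 : ∀ᶠ x : ℝ in atTop, K ≤ x ^ (1 / 8 : ℝ) :=
    (tendsto_rpow_atTop (by norm_num : (0 : ℝ) < 1 / 8)).eventually_ge_atTop K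
  have h3 : ∀ᶠ x : ℝ in atTop, ‖Real.log x ^ ((10132 : ℕ) : ℝ)‖ ≤ 1 * ‖x ^ (1 / 8 : ℝ)‖ :=
    (isLittleO_log_rpow_rpow_atTop ((10132 : ℕ) : ℝ) (by norm_num : (0 : ℝ) < 1 / 8)).bound
      one_pos
  have h4 := (h1.and (h2.and h3)).and (eventually_ge_atTop (1 : ℝ))
  obtain ⟨N0, hN0⟩ := (tendsto_natCast_atTop_atTop.eventually h4).exists_forall_of_atTop
  refine ⟨N0, fun N hN => ?_⟩
  obtain ⟨⟨a, b, c⟩, d⟩ := hN0 N hN
  refine ⟨a, ?_, b⟩
  rw [Real.rpow_natCast, Real.norm_of_nonneg (by positivity), one_mul,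
    Real.norm_of_nonneg (by positivity)] at c
  exact c

/-- final arithmetic -/
theorem capup_num (ε δ dl cm cp J q x u e1 e2 : ℝ) (hε : 0 < ε) (hδ : 0 < δ) (hδ1 : δ < 1)
    (hJ : 0 < J) (hu : 1 ≤ u) (hdl : u ^ 4 ≤ dl)
    (h : ε / 4 ≤ Real.exp (-(δ / 4 * dl) + J * (δ / 4 * (1 + δ / 4) * cm +
      4 * (δ / 4) ^ 2 * x ^ 2)))
    (hcm : cm ≤ cp + 2 * x ^ 2 + e1 + e2) (he1 : J * e1 ≤ 1) (he2 : J * e2 ≤ 1)
    (hx : J * x ^ 2 ≤ 9 / 2 * u ^ 2) (hq : J ≤ q + 1) (hq1 : 1 ≤ δ / 4 * q)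
    (hlog : 19 + 4 / δ * |Real.log (ε / 4)| ≤ δ / 4 * u ^ 2) :
    (1 - δ) * dl ≤ cp * q := by
  have a1 : Real.log (ε / 4) ≤ -(δ / 4 * dl) + J * (δ / 4 * (1 + δ / 4) * cm +
      4 * (δ / 4) ^ 2 * x ^ 2) := by
    rw [← Real.log_exp (-(δ / 4 * dl) + J * (δ / 4 * (1 + δ / 4) * cm +
      4 * (δ / 4) ^ 2 * x ^ 2))]
    exact Real.log_le_log (by positivity) h
  set A := |Real.log (ε / 4)| with hA
  have a2 : -A ≤ Real.log (ε / 4) := neg_abs_le _
  have hA0 : 0 ≤ A := abs_nonneg _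
  set lam := δ / 4 with hlam
  have hl0 : 0 < lam := by positivity
  have hl1 : lam ≤ 1 / 4 := by rw [hlam]; linarith
  have hδl : δ = 4 * lam := by rw [hlam]; ring
  have a3 : J * cm ≤ J * cp + 2 * (J * x ^ 2) + 2 := by
    have := mul_le_mul_of_nonneg_left hcm hJ.le
    nlinarith
  have a4 : J * cm ≤ J * cp + 9 * u ^ 2 + 2 := by linarith
  have a5 : lam * dl ≤ A + lam * ((1 + lam) * (J * cp + 9 * u ^ 2 + 2) +
      4 * lam * (9 / 2 * u ^ 2)) := by
    have b1 : J * (lam * (1 + lam) * cm + 4 * lam ^ 2 * x ^ 2) =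
        lam * ((1 + lam) * (J * cm) + 4 * lam * (J * x ^ 2)) := by ring
    have b2 : (1 + lam) * (J * cm) ≤ (1 + lam) * (J * cp + 9 * u ^ 2 + 2) :=
      mul_le_mul_of_nonneg_left a4 (by linarith)
    have b3 : 4 * lam * (J * x ^ 2) ≤ 4 * lam * (9 / 2 * u ^ 2) :=
      mul_le_mul_of_nonneg_left hx (by linarith)
    have b4 : lam * ((1 + lam) * (J * cm) + 4 * lam * (J * x ^ 2)) ≤
        lam * ((1 + lam) * (J * cp + 9 * u ^ 2 + 2) + 4 * lam * (9 / 2 * u ^ 2)) :=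
      mul_le_mul_of_nonneg_left (by linarith) hl0.le
    rw [b1] at a1
    linarith
  have a6 : dl ≤ A / lam + ((1 + lam) * (J * cp + 9 * u ^ 2 + 2) +
      4 * lam * (9 / 2 * u ^ 2)) := by
    rw [← mul_le_mul_iff_right₀ hl0, mul_add, mul_div_cancel₀ _ hl0.ne']
    exact a5
  have hu2 : 1 ≤ u ^ 2 := one_le_pow₀ hu
  have a7 : (1 + lam) * (9 * u ^ 2 + 2) + 4 * lam * (9 / 2 * u ^ 2) ≤ 16 * u ^ 2 + 3 := by
    have c1 : lam * u ^ 2 ≤ 1 / 4 * u ^ 2 := mul_le_mul_of_nonneg_right hl1 (by positivity)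
    nlinarith
  have a8 : A / lam + (16 * u ^ 2 + 3) ≤ lam * dl := by
    have c0 : A / lam = 4 / δ * A := by
      rw [hδl]; field_simp
    have c1 : A / lam + (16 * u ^ 2 + 3) ≤ (19 + 4 / δ * A) * u ^ 2 := by
      have c2 : 0 ≤ A / lam := by positivity
      rw [c0] at c2 ⊢
      nlinarith
    have c3 : (19 + 4 / δ * A) * u ^ 2 ≤ lam * u ^ 2 * u ^ 2 :=
      mul_le_mul_of_nonneg_right hlog (by positivity)
    have c4 : lam * u ^ 2 * u ^ 2 = lam * u ^ 4 := by ring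
    have c5 : lam * u ^ 4 ≤ lam * dl := mul_le_mul_of_nonneg_left hdl hl0.le
    linarith
  have a9 : (1 - lam) * dl ≤ (1 + lam) * (J * cp) := by
    have c1 : (1 + lam) * (J * cp + 9 * u ^ 2 + 2) = (1 + lam) * (J * cp) +
      (1 + lam) * (9 * u ^ 2 + 2) := by ring
    rw [c1] at a6
    linarith
  have hdl0 : 0 < dl := lt_of_lt_of_le (by positivity) hdl
  have a10 : 0 < J * cp := by
    have : 0 < (1 + lam) * (J * cp) := lt_of_lt_of_le (mul_pos (by linarith) hdl0) a9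
    exact pos_of_mul_pos_right this (by linarith)
  have hcp : 0 < cp := pos_of_mul_pos_right a10 hJ.le
  have a11 : J * cp ≤ (1 + lam) * (cp * q) := by
    have c1 : J ≤ (1 + lam) * q := by linarith
    calc J * cp ≤ ((1 + lam) * q) * cp := mul_le_mul_of_nonneg_right c1 hcp.le
      _ = (1 + lam) * (cp * q) := by ring
  have a12 : (1 - lam) * dl ≤ (1 + lam) ^ 2 * (cp * q) := by
    calc (1 - lam) * dl ≤ (1 + lam) * (J * cp) := a9
      _ ≤ (1 + lam) * ((1 + lam) * (cp * q)) := mul_le_mul_of_nonneg_left a11 (by linarith)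
      _ = (1 + lam) ^ 2 * (cp * q) := by ring
  have a13 : (1 + lam) ^ 2 * ((1 - δ) * dl) ≤ (1 - lam) * dl := by
    have c1 : (1 + lam) ^ 2 * (1 - δ) ≤ 1 - lam := by
      rw [hδl]
      nlinarith [mul_pos hl0 hl0, mul_pos (mul_pos hl0 hl0) hl0]
    calc (1 + lam) ^ 2 * ((1 - δ) * dl) = ((1 + lam) ^ 2 * (1 - δ)) * dl := by ring
      _ ≤ (1 - lam) * dl := mul_le_mul_of_nonneg_right c1 hdl0.le
  have a14 : (1 + lam) ^ 2 * ((1 - δ) * dl) ≤ (1 + lam) ^ 2 * (cp * q) := a13.trans a12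
  exact le_of_mul_le_mul_left a14 (by positivity)

theorem capup_full {N : ℕ} (ξ : Cfg N) (y : ℕ) (h : ∀ i, y ≤ i → i < N → occ ξ i = true) :
    ht ξ y = N - y := by
  unfold ht
  rw [Finset.sum_congr rfl (g := fun _ => 1)]
  · simp
  · intro i hi
    rw [Finset.mem_Ico] at hi
    rw [if_pos (h i hi.1 hi.2)]

theorem capup_sorted {N k m0 b : ℕ} (ξ : Cfg N) (h0 : ht ξ 0 = k)
    (h : ξ ∈ sorted 0 (N - k - m0) (N - k + m0) N) (hbN : b ≤ N)
    (hb : b + m0 ≤ N - k ∨ N - k + m0 ≤ b) : min k (N - b) ≤ ht ξ b := by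
  obtain ⟨h1, h2⟩ := h
  rcases hb with hb | hb
  · have h3 : cnt ξ 0 b = 0 := by
      unfold cnt
      apply Finset.sum_eq_zero
      intro i hi
      rw [Finset.mem_Ico] at hi
      rw [if_neg]
      rw [h1 i hi.1 (by omega)]
      simp
    have h4 := ht_cnt ξ (Nat.zero_le b) hbN
    omega
  · have h3 := capup_full ξ b (fun i hi hiN => h2 i (by omega) hiN)
    omega

theorem capup_dlt {N k b : ℕ} (s : ℝ) (hs : 0 ≤ s) (h1 : s ≤ b)
    (h2 : (b : ℝ) + s ≤ N) (hk1 : s ≤ k) (hk2 : s ≤ (N : ℝ) - k) : s ≤ dlt N k b := by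
  unfold dlt
  have hbN : (b : ℝ) ≤ N := by linarith
  have hbN' : b ≤ N := by exact_mod_cast hbN
  have e1 : ((N - b : ℕ) : ℝ) = N - b := Nat.cast_sub hbN'
  rcases le_total b k with hbk | hbk
  · have e2 : ((k - b : ℕ) : ℝ) = k - b := Nat.cast_sub hbk
    rw [Nat.cast_min, e1, e2]
    rcases min_choice (k : ℝ) ((N : ℝ) - b) with hm | hm <;> rw [hm] <;> linarith
  · have e2 : k - b = 0 := by omega
    rw [Nat.cast_min, e1, e2]
    rcases min_choice (k : ℝ) ((N : ℝ) - b) with hm | hm <;> rw [hm] <;> push_cast <;> linarith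

/-- bounds for the time scales -/
theorem capup_ms (N : ℕ) (u : ℝ) (hu1 : 1 ≤ u) (hN : (N : ℝ) = u ^ 8)
    (hL1 : 1 ≤ Real.log N) (hL : Real.log N ^ 10132 ≤ u) :
    2 * u ^ 8 ≤ msN N ∧ (msN N : ℝ) ≤ 3 * u ^ 8 * Real.log N ^ 4601 := by
  have hP : 1 ≤ Real.log N ^ 4601 := one_le_pow₀ hL1
  have hu8 : 1 ≤ u ^ 8 := one_le_pow₀ hu1
  constructor
  · have h1 : 2 * (N : ℝ) * Real.log N ^ 4601 ≤ msN N := Nat.le_ceil _
    have h2 : 2 * (N : ℝ) ≤ 2 * (N : ℝ) * Real.log N ^ 4601 := by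
      have : 0 ≤ 2 * (N : ℝ) := by positivity
      nlinarith
    rw [hN] at h1 h2
    linarith
  · have h1 : (msN N : ℝ) < 2 * (N : ℝ) * Real.log N ^ 4601 + 1 :=
      Nat.ceil_lt_add_one (by positivity)
    have h2 : 1 ≤ u ^ 8 * Real.log N ^ 4601 := by
      calc (1 : ℝ) = 1 * 1 := by norm_num
        _ ≤ u ^ 8 * Real.log N ^ 4601 := mul_le_mul hu8 hP (by norm_num) (by positivity)
    rw [hN] at h1
    rw [hN] at h2 ⊢
    linarith

theorem st_CAPUP (hT : ST_TWOG) (hC : ST_CMOM) (hR : ST_RTM) (hTime : ST_TIME) : ST_CAPUP := by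
  intro ε δ c C1 m0 hε hδ hδ1 hc
  set K : ℝ := 1 / c + m0 + 10 + 24 / δ + (19 + 4 / δ * |Real.log (ε / 4)|) * (4 / δ) with hK
  obtain ⟨N0, hN0⟩ := capup_log K
  refine ⟨N0 + 1, ?_⟩
  intro N k b w m1 r l hN hk1 hk2 hA hGE hrb hSep hpr hT1 hT2
  obtain ⟨hL1, hL, hKu⟩ := hN0 N (by omega)
  set u : ℝ := (N : ℝ) ^ (1 / 8 : ℝ) with hu
  have hNpos : (0 : ℝ) < N := by
    have : 0 < N := by omega
    exact_mod_cast this
  have hN8 : (N : ℝ) = u ^ 8 := by
    rw [hu, ← Real.rpow_natCast, ← Real.rpow_mul hNpos.le]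
    norm_num
  have hN4 : (N : ℝ) ^ (1 / 2 : ℝ) = u ^ 4 := by
    rw [hu, ← Real.rpow_natCast, ← Real.rpow_mul hNpos.le]
    norm_num
  have hN17 : (N : ℝ) ^ (17 / 8 : ℝ) = u ^ 17 := by
    rw [hu, ← Real.rpow_natCast, ← Real.rpow_mul hNpos.le]
    norm_num
  have hK1 : 0 ≤ 1 / c := by positivity
  have hK2 : (0 : ℝ) ≤ m0 := Nat.cast_nonneg _
  have hK3 : 0 ≤ 24 / δ := by positivity
  have hK4 : 0 ≤ (19 + 4 / δ * |Real.log (ε / 4)|) * (4 / δ) := by positivity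
  have hu10 : 10 ≤ u := by linarith
  have hu1 : 1 ≤ u := by linarith
  have hu0 : 0 < u := by linarith
  obtain ⟨hms1, hms2⟩ := capup_ms N u hu1 hN8 hL1 hL
  set L : ℝ := Real.log N with hLdef
  have hLp : ∀ p : ℕ, p ≤ 10132 → L ^ p ≤ u := fun p hp =>
    (pow_le_pow_right₀ hL1 hp).trans hL
  have hL0 : 0 ≤ L := by linarith
  set ms : ℝ := (msN N : ℝ) with hmsdef
  have hmspos : 0 < ms := lt_of_lt_of_le (by positivity) hms1
  -- sites
  obtain ⟨hb1, hb2, hb3, hb4⟩ := hSep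
  rw [hN4] at hb1 hb2 hb3 hb4
  have hu4 : u * u ^ 3 = u ^ 4 := by ring
  have hu3 : 1 ≤ u ^ 3 := one_le_pow₀ hu1
  have hw : (w : ℝ) ≤ u := (hGE.wlog).trans (hLp 2 (by norm_num))
  have hu4' : u + 10 ≤ u ^ 4 := by
    have g1 : (10 : ℝ) ^ 3 ≤ u ^ 3 := pow_le_pow_left₀ (by norm_num) hu10 3
    have g2 : u * 10 ^ 3 ≤ u * u ^ 3 := mul_le_mul_of_nonneg_left g1 hu0.le
    linarith only [g2, hu4, hu10]
  have hwb : w + 2 ≤ b := by
    have : ((w + 2 : ℕ) : ℝ) ≤ b := by push_cast; linarith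
    exact_mod_cast this
  have hbN : b + (w + 2) ≤ N := by
    have : ((b + (w + 2) : ℕ) : ℝ) ≤ N := by push_cast; linarith
    exact_mod_cast this
  have hcN : u ^ 4 ≤ c * N := by
    rw [hN8]
    have h1 : 1 / c ≤ u := by linarith
    rw [div_le_iff₀ hc] at h1
    have h2 : u ≤ u ^ 4 := by linarith
    have h3 : 1 ≤ c * u ^ 4 := by
      have h4 : c * u ≤ c * u ^ 4 := mul_le_mul_of_nonneg_left h2 hc.le
      linarith only [h1, h4, mul_comm u c]
    calc u ^ 4 = 1 * u ^ 4 := by ring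
      _ ≤ (c * u ^ 4) * u ^ 4 := mul_le_mul_of_nonneg_right h3 (by positivity)
      _ = c * u ^ 8 := by ring
  have hk1' : u ^ 4 ≤ k := by linarith
  have hk2' : u ^ 4 ≤ (N : ℝ) - k := by linarith
  have hkN : k ≤ N := by
    have : (k : ℝ) ≤ N := by
      have : 0 < u ^ 4 := by positivity
      linarith
    exact_mod_cast this
  have hdl : u ^ 4 ≤ dlt N k b := capup_dlt (u ^ 4) (by positivity) hb1 hb2 hk1' hk2'
  -- number of cycles
  set J : ℕ := m1 / msN N + 1 with hJ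
  have hmsN0 : 0 < msN N := by
    have : (0 : ℝ) < (msN N : ℝ) := hmspos
    exact_mod_cast this
  have hJm : m1 ≤ msN N * J := (Nat.lt_mul_div_succ m1 hmsN0).le
  have hq : (J : ℝ) ≤ (m1 : ℝ) / ms + 1 := by
    rw [hJ]; push_cast
    have : ((m1 / msN N : ℕ) : ℝ) ≤ (m1 : ℝ) / ms := Nat.cast_div_le
    linarith
  have hJpos : (0 : ℝ) < J := by rw [hJ]; push_cast; positivity
  rw [hN17] at hT2
  have hm1u : (m1 : ℝ) / ms ≤ u ^ 17 := by
    have h1 : (m1 : ℝ) / ms ≤ (m1 : ℝ) / (2 * N) := by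
      apply div_le_div_of_nonneg_left (by positivity) (by positivity)
      rw [hN8]; exact hms1
    exact h1.trans hT2
  have hJu : (J : ℝ) ≤ 2 * u ^ 17 := by
    have : 1 ≤ u ^ 17 := one_le_pow₀ hu1
    linarith
  have hq1 : 1 ≤ δ / 4 * ((m1 : ℝ) / ms) := by
    have h1 : (N : ℝ) ^ 2 / L ^ 200 * (2 * N) ≤ m1 := by
      rw [le_div_iff₀ (by positivity)] at hT1
      exact hT1
    have h2 : ms ≤ 3 * u ^ 8 * L ^ 4601 := hms2
    have hL200 : 0 < L ^ 200 := by positivity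
    have h3 : ms * L ^ 200 ≤ 3 * u ^ 9 := by
      calc ms * L ^ 200 ≤ (3 * u ^ 8 * L ^ 4601) * L ^ 200 :=
            mul_le_mul_of_nonneg_right h2 hL200.le
        _ = 3 * u ^ 8 * L ^ 4801 := by rw [mul_assoc, ← pow_add]
        _ ≤ 3 * u ^ 8 * u := mul_le_mul_of_nonneg_left (hLp 4801 (by norm_num)) (by positivity)
        _ = 3 * u ^ 9 := by ring
    have h4 : 2 * u ^ 24 ≤ m1 * L ^ 200 := by
      have h5 : (N : ℝ) ^ 2 / L ^ 200 * (2 * N) = 2 * u ^ 24 / L ^ 200 := by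
        rw [hN8]; field_simp
      rw [h5, div_le_iff₀ hL200] at h1
      exact h1
    have h6 : 24 / δ ≤ u := by linarith
    have h7 : 24 ≤ δ * u := by
      rw [div_le_iff₀ hδ] at h6; linarith
    rw [← mul_div_assoc, le_div_iff₀ hmspos, one_mul]
    have h8 : ms * L ^ 200 ≤ δ / 4 * m1 * L ^ 200 := by
      calc ms * L ^ 200 ≤ 3 * u ^ 9 := h3
        _ ≤ δ / 4 * (2 * u ^ 24) := by
            have h9 : 1 ≤ u ^ 14 := one_le_pow₀ hu1
            have h10 : 24 ≤ (δ * u) * u ^ 14 := by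
              have g1 : δ * u * 1 ≤ (δ * u) * u ^ 14 :=
                mul_le_mul_of_nonneg_left h9 (by positivity)
              linarith only [g1, h7]
            have h11 : u ^ 24 = u * u ^ 14 * u ^ 9 := by ring
            rw [h11]
            have h12 : 0 < u ^ 9 := by positivity
            have h13 : 3 * u ^ 9 ≤ (1 / 8 * ((δ * u) * u ^ 14)) * u ^ 9 :=
              mul_le_mul_of_nonneg_right (by linarith) h12.le
            have h14 : 0 ≤ (δ * u) * u ^ 14 * u ^ 9 := by positivity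
            have h15 : δ / 4 * (2 * (u * u ^ 14 * u ^ 9)) = 1 / 2 * ((δ * u) * u ^ 14 * u ^ 9) := by
              ring
            have h16 : (1 / 8 * ((δ * u) * u ^ 14)) * u ^ 9 = 1 / 8 * ((δ * u) * u ^ 14 * u ^ 9) := by
              ring
            rw [h15]
            rw [h16] at h13
            linarith
        _ ≤ δ / 4 * (m1 * L ^ 200) := mul_le_mul_of_nonneg_left h4 (by positivity)
        _ = δ / 4 * m1 * L ^ 200 := by ring
    exact le_of_mul_le_mul_right h8 hL200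
  -- the crossing rate
  set x : ℝ := r b * msN N / (2 * N) with hx
  have hb1N : 1 ≤ b := by omega
  have hbltN : b < N := by omega
  have hrb0 : 0 < r b := (hA b hb1N hbltN).1
  have hx0 : 0 ≤ x := by rw [hx]; positivity
  have hxu : x ≤ 3 / 2 * L ^ 5066 / u ^ 8 := by
    have h1 : r b * u ^ 8 ≤ L ^ 465 := by rw [← hN8]; exact hrb
    rw [hx, hN8, div_le_div_iff₀ (by positivity) (by positivity)]
    calc r b * ms * u ^ 8 = (r b * u ^ 8) * ms := by ring
      _ ≤ L ^ 465 * (3 * u ^ 8 * L ^ 4601) := mul_le_mul h1 hms2 hmspos.le (by positivity)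
      _ = 3 / 2 * L ^ 5066 * (2 * u ^ 8) := by
          have : L ^ 5066 = L ^ 465 * L ^ 4601 := by rw [← pow_add]
          rw [this]; ring
  have hx1 : r b * msN N ≤ 2 * N := by
    have h1 : x ≤ 1 := by
      refine hxu.trans ?_
      rw [div_le_one (by positivity)]
      have h2 : L ^ 5066 ≤ u := hLp 5066 (by norm_num)
      have h3 : u ^ 8 = u * u ^ 7 := by ring
      have h4 : 10 ≤ u ^ 7 := le_trans hu10 (le_self_pow₀ hu1 (by norm_num))
      have h5 : u * 10 ≤ u * u ^ 7 := mul_le_mul_of_nonneg_left h4 hu0.le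
      linarith only [h2, h3, h5, hu0]
    rw [hx, div_le_one (by positivity)] at h1
    exact h1
  have hJx : (J : ℝ) * x ^ 2 ≤ 9 / 2 * u ^ 2 := by
    have h1 : x ^ 2 ≤ (3 / 2 * L ^ 5066 / u ^ 8) ^ 2 := pow_le_pow_left₀ hx0 hxu 2
    have h2 : (3 / 2 * L ^ 5066 / u ^ 8) ^ 2 = 9 / 4 * L ^ 10132 / u ^ 16 := by
      rw [div_pow, mul_pow, ← pow_mul, ← pow_mul]
      norm_num
    have h3 : 9 / 4 * L ^ 10132 / u ^ 16 ≤ 9 / 4 * u / u ^ 16 := by
      apply div_le_div_of_nonneg_right _ (by positivity)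
      have := hLp 10132 le_rfl
      linarith
    calc (J : ℝ) * x ^ 2 ≤ (2 * u ^ 17) * (9 / 4 * u / u ^ 16) := by
          apply mul_le_mul hJu _ (by positivity) (by positivity)
          rw [h2] at h1
          exact h1.trans h3
      _ = 9 / 2 * u ^ 2 := by
          field_simp
          ring
  -- capacity
  have hPos : Pos N (modl N l) := by
    intro y _ _
    unfold modl
    exact lt_of_lt_of_le (by positivity) (le_max_right _ _)
  set e1 : ℝ := ((msN N : ℝ) / (2 * N)) ^ 2 * (N : ℝ) ^ (-11 : ℝ) with he1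
  set e2 : ℝ := (msN N : ℝ) * (N : ℝ) ^ (-100 : ℝ) with he2
  have hcm : ev r l (fun _ => full N) (msN N) (fun ξ => (ht ξ b : ℝ)) (bot N b) ≤
      cpb N r (modl N l) w b + 2 * x ^ 2 + e1 + e2 := by
    have h1 := hR N r l b (msN N) (bot N b) (by omega) hA
    have f1 : RR r (modl N l) (b + 1 - (w + 2)) (b - 1) ≤ (N : ℝ) ^ (-11 : ℝ) :=
      hGE.far _ _ (by omega) (by omega)
    have f2 : RR r (modl N l) b (b + (w + 2) - 2) ≤ (N : ℝ) ^ (-11 : ℝ) :=
      hGE.far _ _ (by omega) (by omega)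
    have h2 := hT N r (modl N l) b (w + 2) (msN N) ((N : ℝ) ^ (-11 : ℝ)) hGE.adm hPos (by omega)
      (by omega) hbN (by positivity) f1 f2 hx1
    unfold cpb
    linarith
  have hn11 : (N : ℝ) ^ (-11 : ℝ) = 1 / u ^ 88 := by
    rw [hu, ← Real.rpow_natCast, ← Real.rpow_mul hNpos.le, Real.rpow_neg hNpos.le, one_div]
    norm_num
  have hn100 : (N : ℝ) ^ (-100 : ℝ) = 1 / u ^ 800 := by
    rw [hu, ← Real.rpow_natCast, ← Real.rpow_mul hNpos.le, Real.rpow_neg hNpos.le, one_div]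
    norm_num
  have hms3 : ms ≤ 3 * u ^ 9 := by
    calc ms ≤ 3 * u ^ 8 * L ^ 4601 := hms2
      _ ≤ 3 * u ^ 8 * u := mul_le_mul_of_nonneg_left (hLp 4601 (by norm_num)) (by positivity)
      _ = 3 * u ^ 9 := by ring
  have he1' : (J : ℝ) * e1 ≤ 1 := by
    have h1 : ms / (2 * N) ≤ 3 / 2 * u := by
      rw [div_le_iff₀ (by positivity), hN8]
      calc ms ≤ 3 * u ^ 9 := hms3
        _ = 3 / 2 * u * (2 * u ^ 8) := by ring
    have h2 : (ms / (2 * N)) ^ 2 ≤ (3 / 2 * u) ^ 2 := pow_le_pow_left₀ (by positivity) h1 2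
    rw [he1, hn11]
    calc (J : ℝ) * ((ms / (2 * N)) ^ 2 * (1 / u ^ 88)) ≤ (2 * u ^ 17) * ((3 / 2 * u) ^ 2 * (1 / u ^ 88)) := by
          apply mul_le_mul hJu _ (by positivity) (by positivity)
          exact mul_le_mul_of_nonneg_right h2 (by positivity)
      _ = 9 / 2 / u ^ 69 := by
          field_simp
          ring
      _ ≤ 1 := by
          rw [div_le_one (by positivity)]
          have : 10 ≤ u ^ 69 := le_trans hu10 (le_self_pow₀ hu1 (by norm_num))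
          linarith
  have he2' : (J : ℝ) * e2 ≤ 1 := by
    rw [he2, hn100]
    calc (J : ℝ) * (ms * (1 / u ^ 800)) ≤ (2 * u ^ 17) * ((3 * u ^ 9) * (1 / u ^ 800)) := by
          apply mul_le_mul hJu _ (by positivity) (by positivity)
          exact mul_le_mul_of_nonneg_right hms3 (by positivity)
      _ = 6 / u ^ 774 := by
          field_simp
          ring
      _ ≤ 1 := by
          rw [div_le_one (by positivity)]
          have : 10 ≤ u ^ 774 := le_trans hu10 (le_self_pow₀ hu1 (by norm_num))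
          linarith
  -- the event
  have hprob : ε / 4 ≤ pr r l (fun _ => full N) (msN N * J) {ξ | min k (N - b) ≤ ht ξ b}
      (bot N k) := by
    have g1 : pr r l (fun _ => full N) m1 (sorted 0 (N - k - m0) (N - k + m0) N) (bot N k) ≤
        pr r l (fun _ => full N) m1 {ξ | min k (N - b) ≤ ht ξ b} (bot N k) := by
      apply pr_mono_sector (k := k) hA
      · intro ξ hξ hs
        have hm : (m0 : ℝ) ≤ u ^ 4 := by
          have : (m0 : ℝ) ≤ u := by linarith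
          linarith
        have hcast : ((N - k : ℕ) : ℝ) = N - k := Nat.cast_sub hkN
        refine capup_sorted ξ hξ hs (by omega) ?_
        rcases le_abs'.1 hb4 with h | h
        · left
          have : ((b + m0 : ℕ) : ℝ) ≤ ((N - k : ℕ) : ℝ) := by push_cast; linarith
          exact_mod_cast this
        · right
          have : ((N - k + m0 : ℕ) : ℝ) ≤ (b : ℝ) := by push_cast; linarith
          exact_mod_cast this
      · exact ht_bot_zero hkN
    have g2 : pr r l (fun _ => full N) m1 {ξ | min k (N - b) ≤ ht ξ b} (bot N k) ≤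
        pr r l (fun _ => full N) (msN N * J) {ξ | min k (N - b) ≤ ht ξ b} (bot N k) := by
      apply hTime N k r l m1 (msN N * J) _ hkN hA _ hJm
      intro η ξ hη hξ hle
      by_cases hm : min k (N - b) ≤ ht η b
      · have hm' : min k (N - b) ≤ ht ξ b := by
          have := hle b
          omega
        rw [ind_of_mem (A := {ξ : Cfg N | min k (N - b) ≤ ht ξ b}) hm,
          ind_of_mem (A := {ξ : Cfg N | min k (N - b) ≤ ht ξ b}) hm']
      · rw [ind_of_not_mem (A := {ξ : Cfg N | min k (N - b) ≤ ht ξ b}) hm]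
        exact ind_nonneg _ _
    linarith
  have hcm2 := (hC N k b (msN N) J r l hA hkN hb1N hbltN).2 (min k (N - b)) (δ / 4) (by positivity)
    (by linarith) hx1
  have hexp : ε / 4 ≤ Real.exp (-(δ / 4 * dlt N k b) + J * (δ / 4 * (1 + δ / 4) *
      ev r l (fun _ => full N) (msN N) (fun ξ => (ht ξ b : ℝ)) (bot N b) +
        4 * (δ / 4) ^ 2 * x ^ 2)) := hprob.trans hcm2
  have hlog : 19 + 4 / δ * |Real.log (ε / 4)| ≤ δ / 4 * u ^ 2 := by
    have h1 : (19 + 4 / δ * |Real.log (ε / 4)|) * (4 / δ) ≤ u := by linarith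
    have h2 : u ≤ u ^ 2 := le_self_pow₀ hu1 (by norm_num)
    have h3 : (19 + 4 / δ * |Real.log (ε / 4)|) * (4 / δ) ≤ u ^ 2 := h1.trans h2
    have h4 : (19 + 4 / δ * |Real.log (ε / 4)|) =
        δ / 4 * ((19 + 4 / δ * |Real.log (ε / 4)|) * (4 / δ)) := by
      field_simp
    rw [h4]
    exact mul_le_mul_of_nonneg_left h3 (by positivity)
  have hfin := capup_num ε δ (dlt N k b) _ (cpb N r (modl N l) w b) J ((m1 : ℝ) / ms) x u e1 e2
    hε hδ hδ1 hJpos hu1 hdl hexp hcm he1' he2' hJx hq hq1 hlog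
  have hm1pos : (0 : ℝ) < m1 := by
    rcases Nat.eq_zero_or_pos m1 with h | h
    · exfalso
      rw [h] at hq1
      simp at hq1
      linarith
    · exact_mod_cast h
  rw [div_le_iff₀ hm1pos]
  have h2 := mul_le_mul_of_nonneg_right hfin hmspos.le
  calc (1 - δ) * dlt N k b * ms ≤ cpb N r (modl N l) w b * ((m1 : ℝ) / ms) * ms := h2
    _ = cpb N r (modl N l) w b * m1 := by
        field_simp

end Pool.Agent.Helper98.EX
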